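import Pool.Agent.TH423.DF.Main

set_option autoImplicit false

open Finset Filter Topology

namespace Pool.Agent.Results.MP_678834_nt.DifferencesDifferenceSets

/-- a nonzero integer with at most `R` prime factors (with multiplicity), all larger than `y` -/
def AlmostPrime (y : ℝ) (R : ℕ) (m : ℤ) : Prop :=
  m ≠ 0 ∧ (∀ p : ℕ, p.Prime → (p : ℤ) ∣ m → y < p) ∧ ArithmeticFunction.cardFactors m.natAbs ≤ R

/-- Let `a₁, a₂ ≥ 1`, `s ≥ 0`, `r ≥ 0` and `ε > 0` be fixed. Below, for `X ≥ 1`, a system at `X`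
consists of integers `b₁, b₂` of absolute value at most `X ^ (1 - ε)` and integers `e_j, f_j` (`j < s`)
with `|e_j| ≤ X`, `|f_j| ≤ X ^ 2` such that for every prime `p` some integer `n` makes all of
`a₁ n + b₁`, `a₂ n + b₂`, `e_j n + f_j` prime to `p`.

There are `q ≥ 1`, `R`, `X₀` and `δ > 0` such that for all `X ≥ X₀`: there are `r` distinct primes
`p_i ≡ 1 (mod q)` with `X ^ δ < p_i ≤ X ^ (2 δ)`; and for every system at `X`, every abelian group `Γ`,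
every completely additive `F : ℕ → Γ`, every subset `S` of `Γ` and all primes `p_1, ..., p_r` of this
kind (not necessarily distinct), if no translate of
`{∑_{i ∈ A} F(p_i) - ∑_{i ∉ A} F(p_i) : A ⊆ [r]}` is contained in `S - S`, then at least
`X ^ (1 - ε)` integers `1 ≤ n ≤ X` are such that `a₁ n + b₁ > 0`, `a₂ n + b₂ > 0`, all the
`s + 2` values are almost prime (at most `R` prime factors, all larger than `X ^ δ`) and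
`F((a₁ n + b₁) (a₂ n + b₂)) ∉ S`. -/
theorem result (r s a₁ a₂ : ℕ) (ha₁ : 0 < a₁) (ha₂ : 0 < a₂) (ε : ℝ) (hε : 0 < ε) :
    ∃ q R X₀ : ℕ, ∃ δ : ℝ, 0 < q ∧ 0 < δ ∧ ∀ X : ℕ, X₀ ≤ X →
      (∃ P : Fin r → ℕ, Function.Injective P ∧ ∀ i, (P i).Prime ∧ (X : ℝ) ^ δ < P i ∧
        (P i : ℝ) ≤ (X : ℝ) ^ (2 * δ) ∧ (q : ℤ) ∣ (P i : ℤ) - 1) ∧
      ∀ (b₁ b₂ : ℤ) (e f : Fin s → ℤ), (|b₁| : ℝ) ≤ (X : ℝ) ^ (1 - ε) →
      (|b₂| : ℝ) ≤ (X : ℝ) ^ (1 - ε) → (∀ j, |e j| ≤ X ∧ |f j| ≤ (X : ℤ) ^ 2) →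
      (∀ p : ℕ, p.Prime → ∃ n : ℤ, ¬ (p : ℤ) ∣ a₁ * n + b₁ ∧ ¬ (p : ℤ) ∣ a₂ * n + b₂ ∧
        ∀ j, ¬ (p : ℤ) ∣ e j * n + f j) →
      ∀ (Γ : Type) [AddCommGroup Γ] (F : ℕ → Γ),
      (∀ x y : ℕ, x ≠ 0 → y ≠ 0 → F (x * y) = F x + F y) → ∀ (S : Set Γ) (P : Fin r → ℕ),
      (∀ i, (P i).Prime ∧ (X : ℝ) ^ δ < P i ∧
        (P i : ℝ) ≤ (X : ℝ) ^ (2 * δ) ∧ (q : ℤ) ∣ (P i : ℤ) - 1) →
      (∀ h : Γ, ∃ A : Finset (Fin r), ∀ x ∈ S, ∀ y ∈ S,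
        h + (∑ i ∈ A, F (P i) - ∑ i ∈ Aᶜ, F (P i)) ≠ x - y) →
      (X : ℝ) ^ (1 - ε) ≤ ({n : ℕ | 1 ≤ n ∧ n ≤ X ∧ 0 < (a₁ : ℤ) * n + b₁ ∧
        0 < (a₂ : ℤ) * n + b₂ ∧ AlmostPrime ((X : ℝ) ^ δ) R ((a₁ : ℤ) * n + b₁) ∧
        AlmostPrime ((X : ℝ) ^ δ) R ((a₂ : ℤ) * n + b₂) ∧
        (∀ j, AlmostPrime ((X : ℝ) ^ δ) R (e j * n + f j)) ∧
        F (((a₁ : ℤ) * n + b₁) * ((a₂ : ℤ) * n + b₂)).natAbs ∉ S}.ncard : ℝ) :=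
  Pool.Agent.TH423.DF.main r s a₁ a₂ ha₁ ha₂ ε hε

end Pool.Agent.Results.MP_678834_nt.DifferencesDifferenceSets
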