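import Mathlib
import Pool.Agent.TH891.SG.Pr3

set_option autoImplicit false

/-! Prime pairs with an even difference `d ≤ (log x)^2`: many differences reach (and some exceed) the
prediction, uniformly down to relative precision `1 / log x`, helper891. -/

namespace Pool.Agent.Results.MP_678834_nt.ManyDifferences

open Finset Filter Topology

/-- The twin prime constant `C₂`. -/
noncomputable def C2 : ℝ := ∏' p : {p : ℕ // p.Prime ∧ 2 < p}, (1 - 1 / (((p.1 : ℕ) : ℝ) - 1) ^ 2)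

/-- `𝔖(d) = 2 C₂ ∏_{p ∣ d, p ≥ 3} (p - 1) / (p - 2)`, used for even `d`. -/
noncomputable def S (d : ℕ) : ℝ :=
  2 * C2 * ∏ p ∈ d.primeFactors.filter (fun p : ℕ => 2 < p), (((p : ℝ) - 1) / ((p : ℝ) - 2))

/-- `π₂(x, d)`, the number of primes `p ≤ x` with `p - d` prime. -/
noncomputable def pi2 (x : ℝ) (d : ℕ) : ℕ :=
  ((Icc 1 ⌊x⌋₊).filter (fun p : ℕ => p.Prime ∧ (p - d).Prime)).card

open Classical in
/-- The even `d` with `2 ≤ d ≤ (log x)^2` and `π₂(x, d) ≥ (1 - ε) 𝔖(d) x / (log x)^2`. -/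
noncomputable def good (x ε : ℝ) : Finset ℕ :=
  (Icc 2 ⌊Real.log x ^ 2⌋₊).filter (fun d : ℕ => Even d ∧
    (1 - ε) * (S d * x / Real.log x ^ 2) ≤ (pi2 x d : ℝ))

/-- Let `δ > 0` and `0 < η ≤ 1`.
(1) For some `κ > 0`, all large `x` and all `ε` with `-(1 - η)/log x ≤ ε ≤ 1` (so `ε = 0` and some
negative `ε` are allowed), at least `κ (ε + 1/log x)^(1+δ) (log x)^2` even `d ≤ (log x)^2` satisfy
`π₂(x, d) ≥ (1 - ε) 𝔖(d) x / (log x)^2`.
(2) At the precision of the question: for every `0 < ε ≤ 1` there is `κ > 0` such that for all large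
`x` at least `κ (log x)^2 / (log log x)^(2+2δ)` even `d ≤ (log x)^2` satisfy
`π₂(x, d) ≥ (1 - ε/(log log x)^2) 𝔖(d) x / (log x)^2`.
(3) For all large `x` some even `d` in `[2, (log x)^2]` satisfies
`π₂(x, d) (log x)^2 / (𝔖(d) x) ≥ 1 + (1 - η)/log x`, so that `E(x) ≥ (1 - η)/log x`. -/
theorem result (δ η : ℝ) (hδ : 0 < δ) (hη : 0 < η) (hη1 : η ≤ 1) :
    (∃ κ : ℝ, 0 < κ ∧ ∃ X : ℝ, ∀ x : ℝ, X ≤ x → ∀ ε : ℝ, -(1 - η) / Real.log x ≤ ε → ε ≤ 1 →
      κ * (ε + 1 / Real.log x) ^ (1 + δ) * Real.log x ^ 2 ≤ ((good x ε).card : ℝ)) ∧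
    (∀ ε : ℝ, 0 < ε → ε ≤ 1 → ∃ κ : ℝ, 0 < κ ∧ ∃ X : ℝ, ∀ x : ℝ, X ≤ x →
      κ * (Real.log x ^ 2 / Real.log (Real.log x) ^ (2 + 2 * δ)) ≤
        ((good x (ε / Real.log (Real.log x) ^ 2)).card : ℝ)) ∧
    (∃ X : ℝ, ∀ x : ℝ, X ≤ x → ∃ d : ℕ, Even d ∧ 2 ≤ d ∧ (d : ℝ) ≤ Real.log x ^ 2 ∧ 0 < S d ∧
      1 + (1 - η) / Real.log x ≤ (pi2 x d : ℝ) * Real.log x ^ 2 / (S d * x)) := by
  classical
  have hmain := Pool.Agent.TH891.SG.pairs_real (δ := δ) (η₀ := η) hδ hη hη1
  have h1 : (∃ κ : ℝ, 0 < κ ∧ ∃ X : ℝ, ∀ x : ℝ, X ≤ x → ∀ ε : ℝ, -(1 - η) / Real.log x ≤ ε → ε ≤ 1 →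
      κ * (ε + 1 / Real.log x) ^ (1 + δ) * Real.log x ^ 2 ≤ ((good x ε).card : ℝ)) := by
    obtain ⟨κ, hκ, X, hX⟩ := hmain
    refine ⟨κ, hκ, X, fun x hx ε hε hε1 => ?_⟩
    have := hX x hx ε hε hε1
    refine this.trans (le_of_eq ?_)
    congr 1
  refine ⟨h1, ?_, ?_⟩
  · obtain ⟨κ, hκ, X, hX⟩ := h1
    intro ε hε hε1
    refine ⟨κ * ε ^ (1 + δ), by positivity, max X (Real.exp (Real.exp 1)), fun x hx => ?_⟩
    have hxX := (le_max_left _ _).trans hx
    have hxe := (le_max_right _ _).trans hx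
    have hx0 : 0 < x := lt_of_lt_of_le (Real.exp_pos _) hxe
    have hl : Real.exp 1 ≤ Real.log x := by rwa [Real.le_log_iff_exp_le hx0]
    have hl0 : 0 < Real.log x := lt_of_lt_of_le (Real.exp_pos _) hl
    have hll : 1 ≤ Real.log (Real.log x) := by rwa [Real.le_log_iff_exp_le hl0]
    have hll0 : 0 < Real.log (Real.log x) := by linarith
    have hll2 : 1 ≤ Real.log (Real.log x) ^ 2 := one_le_pow₀ hll
    have hε' : 0 < ε / Real.log (Real.log x) ^ 2 := by positivity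
    have h2 := hX x hxX (ε / Real.log (Real.log x) ^ 2) (by
      have : -(1 - η) / Real.log x ≤ 0 := div_nonpos_of_nonpos_of_nonneg (by linarith) hl0.le
      linarith) (by
      rw [div_le_one (by positivity)]; linarith)
    refine le_trans ?_ h2
    have h3 : (ε / Real.log (Real.log x) ^ 2) ^ (1 + δ) ≤ (ε / Real.log (Real.log x) ^ 2 + 1 / Real.log x) ^ (1 + δ) := by
      apply Real.rpow_le_rpow hε'.le _ (by linarith)
      have : 0 < 1 / Real.log x := by positivity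
      linarith
    have h4 : (ε / Real.log (Real.log x) ^ 2) ^ (1 + δ) = ε ^ (1 + δ) / Real.log (Real.log x) ^ (2 + 2 * δ) := by
      rw [Real.div_rpow hε.le (by positivity)]
      congr 1
      rw [← Real.rpow_natCast, ← Real.rpow_mul hll0.le]
      congr 1
      push_cast
      ring
    calc κ * ε ^ (1 + δ) * (Real.log x ^ 2 / Real.log (Real.log x) ^ (2 + 2 * δ))
        = κ * (ε / Real.log (Real.log x) ^ 2) ^ (1 + δ) * Real.log x ^ 2 := by
          rw [h4]; ring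
      _ ≤ _ := by
          apply mul_le_mul_of_nonneg_right _ (by positivity)
          exact mul_le_mul_of_nonneg_left h3 hκ.le
  · obtain ⟨κ, hκ, X, hX⟩ := h1
    refine ⟨max X (Real.exp 1), fun x hx => ?_⟩
    have hxX := (le_max_left _ _).trans hx
    have hxe := (le_max_right _ _).trans hx
    have hx0 : 0 < x := lt_of_lt_of_le (Real.exp_pos _) hxe
    have hl : 1 ≤ Real.log x := by rwa [Real.le_log_iff_exp_le hx0]
    have hl0 : 0 < Real.log x := by linarith
    have h2 := hX x hxX (-(1 - η) / Real.log x) le_rfl (by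
      have : -(1 - η) / Real.log x ≤ 0 := div_nonpos_of_nonpos_of_nonneg (by linarith) hl0.le
      linarith)
    have e1 : -(1 - η) / Real.log x + 1 / Real.log x = η / Real.log x := by ring
    rw [e1] at h2
    have h3 : 0 < κ * (η / Real.log x) ^ (1 + δ) * Real.log x ^ 2 := by positivity
    have h4 : 0 < (good x (-(1 - η) / Real.log x)).card := by
      have : (0:ℝ) < ((good x (-(1 - η) / Real.log x)).card : ℝ) := lt_of_lt_of_le h3 h2
      exact_mod_cast this
    obtain ⟨d, hd⟩ := card_pos.1 h4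
    unfold good at hd
    rw [mem_filter, mem_Icc] at hd
    obtain ⟨⟨hd2, hdl⟩, heven, hge⟩ := hd
    have hS : S d = Pool.Agent.H387R2.Uni.CT {0, d} := (Pool.Agent.TH891.SG.CT_pair hd2 heven).symm
    have hSpos : 0 < S d := by
      rw [hS, Pool.Agent.TH891.SG.CT_pos_iff]
      intro p hp
      rw [Pool.Agent.TH891.SG.nuT_pair hp]
      split_ifs with h
      · exact hp.one_lt
      · have : p ≠ 2 := by
          rintro rfl
          exact h heven.two_dvd
        exact lt_of_le_of_ne hp.two_le (Ne.symm this)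
    refine ⟨d, heven, hd2, ?_, hSpos, ?_⟩
    · exact (Nat.le_floor_iff (by positivity)).1 hdl
    · rw [le_div_iff₀ (by positivity)]
      have h5 := mul_le_mul_of_nonneg_right hge (by positivity : (0:ℝ) ≤ Real.log x ^ 2)
      have e2 : (1 - -(1 - η) / Real.log x) * (S d * x / Real.log x ^ 2) * Real.log x ^ 2 =
          (1 + (1 - η) / Real.log x) * (S d * x) := by
        field_simp
        ring
      rw [e2] at h5
      exact h5

end Pool.Agent.Results.MP_678834_nt.ManyDifferences
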