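import Pool.Agent.TH464.PO.ShiftInst
import Pool.Agent.TH464.PO.MomLaw

set_option autoImplicit false

/-!
# Almost prime pairs `m`, `m + d`: all moments of the counts in several windows, uniformly

Let `m` be good if `m` and `m + d` both have at most `r` prime factors, all larger than `X ^ (1 /
r)`. Let `V` be the product of `1 - ρ(p) / p` over the primes `p ≤ X ^ (1 / r)`. Given `θ > 0`,
exponents `e_1, ..., e_s`, a size `x` and an accuracy `ε`, for all `r ≥ r0` and all large `X`,
uniformly for all even `d ≤ X`, in ALL intervals `(Z, Z + Y]` inside `[0, 2 X]` of length `Y ≥ X ^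
θ` and for ALL disjoint windows `(u_i, v_i]`, `i = 1, ..., s`, with `v_i V ≤ x`: the mean over `n`
in `(Z, Z + Y]` of the product of the binomial coefficients `C(N_i, e_i)`, `N_i` the number of the
good integers in the window `(n + u_i, n + v_i]`, is the product of the `((v_i - u_i) V) ^ e_i /
e_i!`, up to `ε`.
-/

namespace Pool.Agent.Results.MP_678834_nt.MomentsUniform

open Finset Filter

/-- `N` has at most `B` prime factors (with multiplicity), all of them larger than `z`. -/
def AlmostPrime (B : ℕ) (z : ℝ) (N : ℕ) : Prop :=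
  N.primeFactorsList.length ≤ B ∧ ∀ p : ℕ, p.Prime → p ∣ N → z < (p : ℝ)

/-- `m` is good: `m` and `m + d` both have at most `r` prime factors, all larger than `X ^ (1 / r)`. -/
def Good (r X d m : ℕ) : Prop :=
  AlmostPrime r ((X : ℝ) ^ (1 / (r : ℝ))) m ∧ AlmostPrime r ((X : ℝ) ^ (1 / (r : ℝ))) (m + d)

open Classical in
/-- The sieve density: the product of `1 - ρ(p) / p` over the primes `p ≤ X ^ (1 / r)`, where `ρ(p)` is
the number of the `t` mod `p` with `p ∣ t` or `p ∣ t + d`. -/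
noncomputable def V (r X d : ℕ) : ℝ :=
  ∏ p ∈ (Finset.range (⌊(X : ℝ) ^ (1 / (r : ℝ))⌋₊ + 1)).filter Nat.Prime,
    (1 - (((Finset.range p).filter (fun t : ℕ => p ∣ t ∨ p ∣ t + d)).card : ℝ) / p)

open Classical in
/-- The number of the good `m` in `(u, v]`. -/
noncomputable def N (r X d u v : ℕ) : ℕ :=
  ((Finset.Ioc u v).filter (fun m => Good r X d m)).card

open Pool.Agent.TH464.PO

open Classical in
/-- **All mixed binomial moments of the counts in several windows**, uniformly in the pattern and in all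
intervals. -/
theorem result (θ : ℝ) (hθ : 0 < θ) (s : ℕ) (e : Fin s → ℕ) (x ε : ℝ) (hε : 0 < ε) :
    ∃ r0 : ℕ, ∀ r : ℕ, r0 ≤ r → ∀ᶠ X : ℕ in atTop, ∀ d : ℕ, 1 ≤ d → d ≤ X → Even d →
      ∀ Z Y : ℕ, (X : ℝ) ^ θ ≤ Y → Z + Y ≤ 2 * X →
      ∀ u v : Fin s → ℕ, (∀ i, u i ≤ v i) → (∀ i, v i * V r X d ≤ x) →
      (∀ i j, i ≠ j → v i ≤ u j ∨ v j ≤ u i) →
        |∑ n ∈ Finset.Ioc Z (Z + Y), ∏ i, (((N r X d (n + u i) (n + v i)).choose (e i) : ℕ) : ℝ) -
          Y * ∏ i, ((((v i : ℝ) - u i) * V r X d) ^ (e i) / (e i).factorial)| ≤ ε * Y := by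
  obtain ⟨r0, h⟩ := sh_mom 2 le_rfl θ hθ e x ε hε
  refine ⟨r0, fun r hr => ?_⟩
  filter_upwards [h r hr] with X hX d hd1 hdX hde
  exact hX (P2 d) (P2_card d hd1) (P2_le d X hdX) (P2_ad d hde)
    (Good r X d) (V r X d) (P2_ap d r _) (P2_V d _)

end Pool.Agent.Results.MP_678834_nt.MomentsUniform
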