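import Mathlib
import Pool.Agent.TH899.UG.UHalf

/-!
# More than half of the multiples are prime differences, at every scale and for every step

There is `δ > 0` such that for all `T₀` there is `b` such that for all `η > 0`, all large `N` and EVERY step
`1 ≤ B ≤ N / b` there are `M ≥ 1` and `T ≥ T₀` with `M T ≤ b` such that at least `(1/2 + δ) T` of the first `T`
multiples `k M B` of `M B` are differences of at least `N ^ (1 - η)` pairs of primes up to `3 N`.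
-/

set_option autoImplicit false

namespace Pool.Agent.Results.MP_678834_nt.UniformMoreThanHalf

open Filter

theorem result : ∃ δ : ℝ, 0 < δ ∧ ∀ T₀ : ℕ, ∃ b : ℕ, ∀ η : ℝ, 0 < η → ∀ᶠ N : ℕ in atTop,
    ∀ B : ℕ, 1 ≤ B → b * B ≤ N → ∃ M T : ℕ, 1 ≤ M ∧ T₀ ≤ T ∧ M * T ≤ b ∧
      (1 / 2 + δ) * T ≤ ({k : ℕ | 1 ≤ k ∧ k ≤ T ∧ (N : ℝ) ^ (1 - η) ≤
        ({p : ℕ | p ≤ 2 * N ∧ p.Prime ∧ (p + k * (M * B)).Prime}.ncard : ℝ)}.ncard : ℝ) := by
  classical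
  obtain ⟨δ, hδ, H⟩ := Pool.Agent.TH899.UG.UHalf.uhalf
  refine ⟨δ, hδ, fun T₀ => ?_⟩
  obtain ⟨b, H⟩ := H T₀
  refine ⟨b, fun η hη => ?_⟩
  filter_upwards [H η hη] with N hN
  intro B hB hBN
  obtain ⟨M, T, h1, h2, h3, h4⟩ := hN B hB hBN
  refine ⟨M, T, h1, h2, h3, h4.trans ?_⟩
  rw [Nat.cast_le]
  refine Set.ncard_le_ncard ?_ ((Set.finite_Iic T).subset fun k hk => hk.2.1)
  rintro k ⟨hk1, hk2, hk3⟩
  refine ⟨hk1, hk2, hk3.trans ?_⟩
  rw [← Set.ncard_coe_finset, Nat.cast_le]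
  refine Set.ncard_le_ncard ?_ ((Set.finite_Iic (2 * N)).subset fun p hp => hp.1)
  intro p hp
  have h5 := Finset.mem_filter.1 (Finset.mem_coe.1 hp)
  refine ⟨(Finset.mem_Icc.1 h5.1).2, h5.2.1, ?_⟩
  have e : p + k * (M * B) = p + B * (M * k) := by ring
  rw [e]
  exact h5.2.2

end Pool.Agent.Results.MP_678834_nt.UniformMoreThanHalf
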